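import Pool.Agent.W23.SG.All

/-!
# Linear forms on arbitrary, also sparse, sets of primes

Let `ε > 0`. For EVERY set `Q` of primes up to `X` with `|Q| ≥ X^(1-η)` consider all primitive linear forms `a + b q` with
`1 ≤ b ≤ X^(1/3)` and `|a| ≤ X^(4/3)`. With at most `C X / (|Q| log X)` exceptions ALTOGETHER each of these forms has, for a
positive proportion of the primes `q ∈ Q`, a value which is, up to a factor composed of primes below `X^ε`, a product of at
most three primes, none of which is smaller than `X^(1/8)`. If `Q` contains a positive proportion of the primes up to `X`,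
the number of the exceptional forms is bounded.

Design and proof: helper23 and the helpers of the project SG (module `Pool.Agent.W23.SG.All` of the starting repository).
-/

set_option autoImplicit false

open Finset Filter Topology

namespace Pool.Agent.Results.MP_8923e7_nt.LinearFormsOnSparseSets

/-- `a + b q = ± m s` is not zero, `m` is composed of primes `< X^ε` and `s` is a product of at most three primes (counted
with multiplicity), all `≥ X^(1/8)` -/
def Value (ε : ℝ) (X : ℕ) (L : ℤ × ℕ) (q : ℕ) : Prop :=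
  L.1 + L.2 * q ≠ 0 ∧ ∃ m s : ℕ, (L.1 + L.2 * q).natAbs = m * s ∧
    (∀ l : ℕ, l.Prime → l ∣ m → (l : ℝ) < (X : ℝ) ^ ε) ∧
    s.primeFactorsList.length ≤ 3 ∧ ∀ l ∈ s.primeFactors, (X : ℝ) ^ (1 / 8 : ℝ) ≤ l

/-- the primitive linear forms `a + b q` with `1 ≤ b ≤ X^(1/3)`, `|a| ≤ X^(4/3)` -/
def Form (X : ℕ) (L : ℤ × ℕ) : Prop :=
  Int.gcd L.1 L.2 = 1 ∧ |(L.1 : ℝ)| ≤ (X : ℝ) ^ (4 / 3 : ℝ) ∧ 1 ≤ L.2 ∧ (L.2 : ℝ) ≤ (X : ℝ) ^ (1 / 3 : ℝ)

open Classical in
/-- fewer than `c |Q|` of the `q ∈ Q` satisfy `Value` -/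
def Exceptional (ε c : ℝ) (X : ℕ) (Q : Finset ℕ) (L : ℤ × ℕ) : Prop :=
  ((Q.filter (fun q : ℕ => Value ε X L q)).card : ℝ) < c * Q.card

/-- Main theorem: (1) for all sets `Q` of primes up to `X` with at least `X^(1-η)` elements: every set of exceptional forms has at
most `C X / (|Q| log X)` elements; (2) for the sets which contain at least the proportion `δ` of the primes
(`|Q| ≥ δ X / log X`) there are at most `C / δ` exceptional forms. -/
theorem result : ∀ ε : ℝ, 0 < ε → ∃ c C η : ℝ, 0 < c ∧ 0 < C ∧ 0 < η ∧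
    (∀ X : ℕ, 2 ≤ X → ∀ Q : Finset ℕ, (∀ q ∈ Q, q.Prime ∧ q ≤ X) → (X : ℝ) ^ (1 - η) ≤ Q.card →
      ∀ E : Finset (ℤ × ℕ), (∀ L ∈ E, Form X L ∧ Exceptional ε c X Q L) →
        (E.card : ℝ) ≤ C * (X / (Q.card * Real.log X))) ∧
    (∀ δ : ℝ, 0 < δ → ∃ X₀ : ℕ, ∀ X : ℕ, X₀ ≤ X → ∀ Q : Finset ℕ,
      (∀ q ∈ Q, q.Prime ∧ q ≤ X) → δ * (X / Real.log X) ≤ Q.card →
      ∀ E : Finset (ℤ × ℕ), (∀ L ∈ E, Form X L ∧ Exceptional ε c X Q L) → (E.card : ℝ) ≤ C / δ) := by
  classical
  intro ε hε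
  obtain ⟨c, C, η, hc, hη, h⟩ := Pool.Agent.W23.SG.linear_forms ε hε
  have hmain : ∀ X : ℕ, 2 ≤ X → ∀ Q : Finset ℕ, (∀ q ∈ Q, q.Prime ∧ q ≤ X) → (X : ℝ) ^ (1 - η) ≤ Q.card →
      ∀ E : Finset (ℤ × ℕ), (∀ L ∈ E, Form X L ∧ Exceptional ε c X Q L) →
        (E.card : ℝ) ≤ max C 1 * (X / (Q.card * Real.log X)) := by
    intro X hX Q hQ hcard E hE
    have h1 := h X hX Q hQ hcard E (by
      intro L hL
      obtain ⟨⟨g1, g2, g3, g4⟩, g5⟩ := hE L hL
      refine ⟨g1, g2, g3, g4, ?_⟩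
      unfold Exceptional at g5
      refine lt_of_le_of_lt (le_of_eq ?_) g5
      refine congrArg (Nat.cast : ℕ → ℝ) (congrArg Finset.card (Finset.ext fun q => ?_))
      rw [mem_filter, mem_filter]
      exact Iff.rfl)
    have h2 : 0 ≤ (X : ℝ) / (Q.card * Real.log X) := by
      have := Real.log_natCast_nonneg X
      positivity
    exact h1.trans (mul_le_mul_of_nonneg_right (le_max_left C 1) h2)
  refine ⟨c, max C 1, η, hc, lt_max_of_lt_right one_pos, hη, hmain, ?_⟩
  intro δ hδ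
  have e1 : ∀ᶠ x : ℝ in atTop, Real.log x ≤ δ * x ^ η := by
    have h1 := (isLittleO_log_rpow_atTop hη).def hδ
    filter_upwards [h1, eventually_ge_atTop (1 : ℝ)] with x h2 h3
    rw [Real.norm_eq_abs, Real.norm_eq_abs, abs_of_nonneg (Real.rpow_nonneg (by linarith) _)] at h2
    exact (le_abs_self _).trans h2
  obtain ⟨X₁, hX₁⟩ := (tendsto_natCast_atTop_atTop (R := ℝ) |>.eventually e1).exists_forall_of_atTop
  refine ⟨max X₁ 2, ?_⟩
  intro X hX Q hQ hcard E hE
  have hX2 : 2 ≤ X := (le_max_right _ _).trans hX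
  have hXr : (1 : ℝ) < X := by exact_mod_cast (by omega : 1 < X)
  have hX0 : (0 : ℝ) < X := by linarith
  have hlog : 0 < Real.log X := Real.log_pos hXr
  have h1 := hX₁ X ((le_max_left _ _).trans hX)
  have h2 : (X : ℝ) ^ (1 - η) ≤ Q.card := by
    refine le_trans ?_ hcard
    rw [Real.rpow_sub hX0, Real.rpow_one, mul_div_assoc', div_le_div_iff₀ (by positivity) hlog]
    nlinarith
  refine (hmain X hX2 Q hQ h2 E hE).trans ?_
  have h3 : 0 < δ * (X / Real.log X) := by positivity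
  have h4 : (X : ℝ) / (Q.card * Real.log X) ≤ 1 / δ := by
    rw [div_le_div_iff₀ (mul_pos (h3.trans_le hcard) hlog) hδ]
    have h5 := mul_le_mul_of_nonneg_right hcard hlog.le
    have h6 : δ * (X / Real.log X) * Real.log X = X * δ := by
      field_simp
    rw [h6] at h5
    linarith
  calc max C 1 * (X / (Q.card * Real.log X)) ≤ max C 1 * (1 / δ) :=
        mul_le_mul_of_nonneg_left h4 (le_max_of_le_right zero_le_one)
    _ = max C 1 / δ := by ring

end Pool.Agent.Results.MP_8923e7_nt.LinearFormsOnSparseSets
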