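import Pool.Agent.Q26.PD.Tup3

/-!
# The asymptotic formula of Hardy and Littlewood for prime tuples with palindromic shifts

Definitions used: `Pool.Agent.H373R2.T7.singZ a z`: the partial product over the primes `p ≤ z` of
`(1 - ν(p) / p) / (1 - 1 / p) ^ (s + 1)`, where `ν(p)` is the number of `r < p` for which `p` divides
`r (r + a 1) ... (r + a s)`; `Pool.Agent.H373R2.T7.tupleCount a N`: the sum of
`log p * ∏ i, log (p + a i)` over the primes `p ≤ N` for which all `p + a i` are primes;
`Pool.Agent.H373R2.T7.Admissible a`: for every prime `p` there is an `r` such that `p` divides neither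
`r` nor any `r + a i`; `Pool.Agent.H560R3.GB.primeTuples a N`: the number of primes `p ≤ N` for which
all `p + a i` are primes.
-/

set_option autoImplicit false

namespace Pool.Agent.Results.MP_8923e7_nt.PalindromicTuples

open Finset Pool.Agent.H560R3.GB
open Pool.Agent.H373R2.T7 (singZ tupleCount Admissible)

/-- The formula of Hardy and Littlewood for the tuple `p, p + a 1, ..., p + a s` and the primes `p ≤ N`: the
singular series converges, its sum `S` predicts the weighted number of prime tuples with an error of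
at most `N / log ^ U N`, and, if the shifts are admissible, `S` is positive and `S N / log ^ (s + 1) N`
predicts the number of prime tuples with a relative error of at most `ε`. -/
def Holds {s : ℕ} (ε : ℝ) (U N : ℕ) (a : Fin s → ℕ) : Prop :=
  ∃ S : ℝ, Filter.Tendsto (fun z => singZ (fun i => (a i : ℤ)) z) Filter.atTop (nhds S) ∧
    |tupleCount (fun i => (a i : ℤ)) N - S * N| ≤ (N : ℝ) / Real.log N ^ U ∧
    (Admissible (fun i => (a i : ℤ)) → 0 < S ∧
      |(primeTuples a N : ℝ) - S * (N / Real.log N ^ (s + 1))| ≤ ε * (S * (N / Real.log N ^ (s + 1))))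

/-- `v` is a palindrome with exactly `k` digits in base `b`: the digit number `j` (which is
`v / b ^ j % b`) is equal to the digit number `k - 1 - j`, for all `j < k`. -/
def IsPalindrome (b k v : ℕ) : Prop :=
  b ^ (k - 1) ≤ v ∧ v < b ^ k ∧ ∀ j < k, v / b ^ j % b = v / b ^ (k - 1 - j) % b

open Classical in
/-- The palindromes with exactly `k` digits in base `b`. -/
noncomputable def palindromes (b k : ℕ) : Finset ℕ := (range (b ^ k)).filter (IsPalindrome b k)

open Classical in
/-- Let `s ≥ 1`, bases `b i ≥ 2`, integers `κ i ≥ 1`, `B`, `U` and `ε > 0` be fixed. Let `N` be large, let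
`N ≤ B (b i) ^ (k i)` and `(b i) ^ (k i) ≤ B N`, and let `0 ≤ c i ≤ B N` be arbitrary integers. Then the formula of
Hardy and Littlewood for the primes `p ≤ N` and the tuple `p, p + a 1, ..., p + a s` with `a i = c i + κ i * v i`
holds for all the vectors `(v 1, ..., v s)` of palindromes, `v i` with `k i` digits in base `b i`, with the exception
of a proportion of at most `1 / log ^ U N` of these vectors. -/
theorem result (s : ℕ) (hs : 1 ≤ s) (b : Fin s → ℕ) (hb : ∀ i, 2 ≤ b i) (κ : Fin s → ℕ) (hκ : ∀ i, 1 ≤ κ i)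
    (B U : ℕ) (ε : ℝ) (hε : 0 < ε) :
    ∃ N₀ : ℕ, ∀ N, N₀ ≤ N → ∀ k : Fin s → ℕ, (∀ i, N ≤ B * b i ^ k i ∧ b i ^ k i ≤ B * N) →
      ∀ c : Fin s → ℕ, (∀ i, c i ≤ B * N) →
      (((Fintype.piFinset fun i => palindromes (b i) (k i)).filter fun v =>
        ¬ Holds ε U N (fun i => c i + κ i * v i)).card : ℝ) ≤
      ((Fintype.piFinset fun i => palindromes (b i) (k i)).card : ℝ) / Real.log N ^ U := by
  classical
  choose B0 h0 using fun i => Pool.Agent.Q26.PD.pal_one (b i) (hb i) (κ i) (hκ i) B (2 * U + 6 + s + 2)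
  obtain ⟨Bt, hBt⟩ : ∃ Bt, Bt = ∑ i, B0 i := ⟨_, rfl⟩
  have hBi : ∀ i, B0 i ≤ Bt := fun i => by rw [hBt]; exact single_le_sum (fun _ _ => Nat.zero_le _) (mem_univ i)
  obtain ⟨At, hAt⟩ : ∃ At, At = ∑ i, (B + κ i * (3 * B)) := ⟨_, rfl⟩
  have hAi : ∀ i, B + κ i * (3 * B) ≤ At := fun i => by
    rw [hAt]; exact single_le_sum (f := fun i => B + κ i * (3 * B)) (fun _ _ => Nat.zero_le _) (mem_univ i)
  choose N1 h1 using fun i => h0 i (Bt + U + s + 6)
  obtain ⟨Nt, hNt⟩ : ∃ Nt, Nt = ∑ i, N1 i := ⟨_, rfl⟩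
  have hNi : ∀ i, N1 i ≤ Nt := fun i => by rw [hNt]; exact single_le_sum (fun _ _ => Nat.zero_le _) (mem_univ i)
  obtain ⟨n0, h2⟩ := Pool.Agent.Q26.PD.os_gen s hs κ hκ At Bt U ε hε
  refine ⟨Nt + n0 + 3, fun N hN k hk c hc => ?_⟩
  have hlog1 : 1 ≤ Real.log N := by
    rw [Real.le_log_iff_exp_le (by exact_mod_cast (by omega : 0 < N))]
    have : (3 : ℝ) ≤ N := by exact_mod_cast (by omega : 3 ≤ N)
    linarith [Real.exp_one_lt_d9]
  have hlog0 : 0 < Real.log N := by linarith
  choose Ω p hp0 hp1 hpθ hpA hmem hone using fun i => h1 i N (by have := hNi i; omega) (k i) (hk i).1 (hk i).2 (c i) (hc i)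
  have h4 := h2 N (by omega) c Ω p hp0 hp1 hpθ
    (fun i v hv => (hpA i v hv).trans (Nat.mul_le_mul_right _ (hAi i)))
    (fun i z hz1 hz2 Kc hKc G hG => hone i z ((pow_le_pow_right₀ hlog1 (hBi i)).trans hz1) hz2 Kc hKc G hG)
  obtain ⟨F, hF⟩ : ∃ F, F = Fintype.piFinset (fun i => palindromes (b i) (k i)) := ⟨_, rfl⟩
  have hFc : (F.card : ℝ) = ∏ i, ((palindromes (b i) (k i)).card : ℝ) := by
    rw [hF, Fintype.card_piFinset, Nat.cast_prod]
  have hPals : ∀ i, palindromes (b i) (k i) = Pool.Agent.TH872.Mir.Pals (b i) (k i) := fun i => rfl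
  rw [← hF]
  have hpt : ∀ v ∈ F, v ∈ Fintype.piFinset Ω ∧ 1 ≤ (F.card : ℝ) * ∏ i, p i (v i) := by
    intro v hv
    rw [hF, Fintype.mem_piFinset] at hv
    have hv' : ∀ i, v i ∈ Ω i ∧ 1 ≤ ((palindromes (b i) (k i)).card : ℝ) * p i (v i) := fun i => by
      have h5 := hv i
      rw [hPals] at h5 ⊢
      exact hmem i (v i) h5
    refine ⟨Fintype.mem_piFinset.2 fun i => (hv' i).1, ?_⟩
    rw [hFc, ← prod_mul_distrib]
    have h7 : ∏ _i : Fin s, (1 : ℝ) ≤ ∏ i, (((palindromes (b i) (k i)).card : ℝ) * p i (v i)) :=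
      prod_le_prod (fun _ _ => by norm_num) (fun i _ => (hv' i).2)
    rwa [prod_const_one] at h7
  rw [div_eq_mul_one_div]
  calc ((F.filter (fun v => ¬ Holds ε U N (fun i => c i + κ i * v i))).card : ℝ)
      = ∑ v ∈ F.filter (fun v => ¬ Holds ε U N (fun i => c i + κ i * v i)), (1 : ℝ) := by
        rw [sum_const, nsmul_eq_mul, mul_one]
    _ ≤ ∑ v ∈ F.filter (fun v => ¬ Holds ε U N (fun i => c i + κ i * v i)), (F.card : ℝ) *
          (if ¬ Holds ε U N (fun i => c i + κ i * v i) then ∏ i, p i (v i) else 0) := by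
        apply sum_le_sum
        intro v hv
        rw [mem_filter] at hv
        rw [if_pos hv.2]
        exact (hpt v hv.1).2
    _ ≤ ∑ v ∈ Fintype.piFinset Ω, (F.card : ℝ) *
          (if ¬ Holds ε U N (fun i => c i + κ i * v i) then ∏ i, p i (v i) else 0) := by
        apply sum_le_sum_of_subset_of_nonneg
        · intro v hv
          exact (hpt v (mem_filter.1 hv).1).1
        · intro v hv _
          have hv' := Fintype.mem_piFinset.1 hv
          apply mul_nonneg (by positivity)
          split_ifs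
          · exact le_rfl
          · exact prod_nonneg fun i _ => hp0 i _ (hv' i)
    _ ≤ _ := by
        rw [← mul_sum]
        apply mul_le_mul_of_nonneg_left _ (by positivity)
        refine le_trans (le_of_eq ?_) h4
        apply sum_congr rfl
        intro x _
        by_cases hB : Holds ε U N (fun i => c i + κ i * x i)
        · rw [if_neg (not_not.2 hB), if_neg (not_not.2 (show Pool.Agent.W93.TD.HLs ε U N _ from hB))]
        · rw [if_pos hB, if_pos (show ¬ Pool.Agent.W93.TD.HLs ε U N _ from hB)]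

end Pool.Agent.Results.MP_8923e7_nt.PalindromicTuples
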