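import Pool.Agent.TH935.TF9
import Pool.Agent.Q56.TF.Vec

/-!
# The quantitative prime k-tuples conjecture for all vectors of shifts in windows around almost all vectors of
members of real sequences

The shifts `a 1, ..., a k` are arbitrary integers with `|a i - r i (m i)| ≤ log ^ A N`, for almost all vectors
`m` in a box, where for every `i` `r i 1, r i 2, ...` is an arbitrary family of real numbers of nearly minimal
energy; for instance the (real) values of a polynomial with integer coefficients, multiplied by an arbitrary real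
number `κ ≠ 0`, or of a generalised polynomial `∑ w_y t ^ y` whose largest exponent is greater than `1` and not an
integer (`t ^ c`: the sequences of Piatetski-Shapiro).

From Mathlib: `Polynomial ℤ`, `P.eval m`: polynomials and their values; `Finset.Ioc y₁ y₂`: the integers `n` with
`y₁ < n ≤ y₂`; `Fintype.piFinset`: the product of finite sets. The formula for families of integers is from the
starting files (`Pool.Agent.TH935.TF.fam_sys`).
-/

set_option autoImplicit false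

namespace Pool.Agent.Results.MP_8923e7_nt.ShiftsNearRealSequences

open Finset Filter Topology

open Classical in
/-- The energy of order `p` of the family of real numbers `r 1, ..., r x`: the number of the pairs `v`, `w` of
`p`-tuples of elements of `{1, ..., x}` such that `r (v 1) + ... + r (v p)` and `r (w 1) + ... + r (w p)` differ
by at most `1`. -/
noncomputable def energy (p x : ℕ) (r : ℕ → ℝ) : ℕ :=
  (((Fintype.piFinset fun _ : Fin p => Icc 1 x) ×ˢ (Fintype.piFinset fun _ : Fin p => Icc 1 x)).filter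
    (fun q => |∑ i, r (q.1 i) - ∑ i, r (q.2 i)| ≤ 1)).card

/-- The number of the residue classes modulo `p` covered by `0, -a 1, ..., -a k`. -/
def nu {k : ℕ} (a : Fin k → ℤ) (p : ℕ) : ℕ :=
  ((range p).filter (fun n : ℕ => (p : ℤ) ∣ (n : ℤ) ∨ ∃ i, (p : ℤ) ∣ (n : ℤ) + a i)).card

/-- The partial product over the primes `p ≤ z` of the singular series of Hardy and Littlewood for the `k + 1` forms
`n, n + a 1, ..., n + a k`. -/
noncomputable def sing {k : ℕ} (a : Fin k → ℤ) (z : ℕ) : ℝ :=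
  ∏ p ∈ (Icc 1 z).filter Nat.Prime, (1 - (nu a p : ℝ) / p) / (1 - 1 / (p : ℝ)) ^ (k + 1)

/-- The number of the primes `n` with `y₁ < n ≤ y₂` such that `|n + a i|` is prime for every `i`. -/
def count {k : ℕ} (a : Fin k → ℤ) (y₁ y₂ : ℕ) : ℕ :=
  ((Ioc y₁ y₂).filter (fun n : ℕ => n.Prime ∧ ∀ i, ((n : ℤ) + a i).natAbs.Prime)).card

/-- `(a 1, ..., a k)` is an admissible tuple of distinct nonzero integers. -/
def Admissible {k : ℕ} (a : Fin k → ℤ) : Prop :=
  Function.Injective a ∧ (∀ i, a i ≠ 0) ∧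
    ∀ p : ℕ, p.Prime → ∃ n : ℤ, ¬ (p : ℤ) ∣ n ∧ ∀ i, ¬ (p : ℤ) ∣ n + a i

/-- The vector `a` of shifts is good: if it is admissible then its singular series converges to a positive number
`S`, and for all `y₁ < y₂ ≤ B N` with `y₂ - y₁ ≥ N / log ^ V N` the number of the primes `n` with `y₁ < n ≤ y₂` such
that all `|n + a i|` are prime agrees with `S (y₂ - y₁) / log ^ (k + 1) N` up to a relative error of at most `ε`. -/
def Good (ε : ℝ) (V B N : ℕ) {k : ℕ} (a : Fin k → ℤ) : Prop :=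
  Admissible a → ∃ S : ℝ, 0 < S ∧ Tendsto (sing a) atTop (𝓝 S) ∧
    ∀ y₁ y₂ : ℕ, y₁ < y₂ → y₂ ≤ B * N → (N : ℝ) / Real.log N ^ V ≤ (y₂ : ℝ) - y₁ →
      |(count a y₁ y₂ : ℝ) - S * ((y₂ : ℝ) - y₁) / Real.log N ^ (k + 1)| ≤
        ε * (S * ((y₂ : ℝ) - y₁) / Real.log N ^ (k + 1))

open Classical in
/-- The number of the vectors `m` in the box `1 ≤ m i ≤ x i` for which not all vectors `a` of integers with
`|a i - r i (m i)| ≤ w` for all `i` have the property `G`. -/
noncomputable def exceptions {k : ℕ} (x : Fin k → ℕ) (r : Fin k → ℕ → ℝ) (w : ℝ) (G : (Fin k → ℤ) → Prop) : ℕ :=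
  ((Fintype.piFinset fun i => Icc 1 (x i)).filter
    (fun m => ∃ a : Fin k → ℤ, (∀ i, |(a i : ℝ) - r i (m i)| ≤ w) ∧ ¬ G a)).card

/-- The bound at scale `N`: for all the vectors `m` with at most `(∏ x i) / log ^ U N` exceptions all the vectors of
shifts in the windows around the `r i (m i)` are good. -/
def Holds (ε : ℝ) (A B V U N : ℕ) {k : ℕ} (x : Fin k → ℕ) (r : Fin k → ℕ → ℝ) : Prop :=
  (exceptions x r (Real.log N ^ A) (Good ε V B N) : ℝ) ≤ (∏ i, (x i : ℝ)) / Real.log N ^ U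

/-- The sequences: `κ P(m)` for a nonconstant polynomial `P` with integer coefficients, of degree `e`, and a real
number `κ ≠ 0`; or `∑ w_y m ^ y`, a sum over a finite set `F` of real exponents with the largest element `e`, where
`e > 1` is not an integer and `w_e ≠ 0`. -/
def IsSeq (f : ℕ → ℝ) (e : ℝ) : Prop :=
  (∃ P : Polynomial ℤ, 1 ≤ P.natDegree ∧ e = P.natDegree ∧
    ∃ κ : ℝ, κ ≠ 0 ∧ ∀ m : ℕ, f m = κ * ((P.eval (m : ℤ) : ℤ) : ℝ)) ∨
  (∃ (F : Finset ℝ) (w : ℝ → ℝ), e ∈ F ∧ (∀ y ∈ F, y ≤ e) ∧ w e ≠ 0 ∧ 1 < e ∧ (∀ k : ℕ, e ≠ k) ∧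
    ∀ m : ℕ, f m = ∑ y ∈ F, w y * (m : ℝ) ^ y)

open Pool.Agent.TH935.TF

lemma seq_base {f : ℕ → ℝ} {e : ℝ} (h : IsSeq f e) : Pool.Agent.Q56.TF.Base f e ∧ 1 ≤ e := by
  rcases h with ⟨P, hP, rfl, κ, hκ, hf⟩ | ⟨F, w, h1, h2, h3, h4, h5, hf⟩
  · have e1 : f = fun m : ℕ => κ * ((P.eval (m : ℤ) : ℤ) : ℝ) := funext hf
    rw [e1]
    exact ⟨(Pool.Agent.Q56.TF.base_poly P hP).dil hκ, by exact_mod_cast hP⟩
  · have e1 : f = fun m : ℕ => ∑ y ∈ F, w y * (m : ℝ) ^ y := funext hf
    rw [e1]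
    exact ⟨Pool.Agent.Q56.TF.base_gp F w e h1 h2 h3 h4 h5, h4.le⟩

/-- all slopes equal to `1` -/
def one (k : ℕ) : Fin k → ℤ := fun _ => 1

lemma nu_eq {k : ℕ} (a : Fin k → ℤ) (p : ℕ) : nu a p = om (consA (one k)) (consB a) p := by
  unfold nu om
  congr 1
  apply filter_congr
  intro n _
  rw [Fin.exists_fin_succ]
  simp only [consA_zero, consB_zero, consA_succ, consB_succ, one, one_mul, add_zero]

lemma sing_eq {k : ℕ} (a : Fin k → ℤ) : sing a = fun z => Gz (om (consA (one k)) (consB a)) (k + 1) z := by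
  funext z
  unfold sing Gz Fq Pool.Agent.H373R2.T7.pz
  apply prod_congr rfl
  intro p _
  rw [nu_eq]

lemma count_eq {k : ℕ} (a : Fin k → ℤ) (y₁ y₂ : ℕ) : count a y₁ y₂ = cn (consA (one k)) (consB a) y₁ y₂ := by
  unfold count cn
  congr 1
  apply filter_congr
  intro n _
  rw [Fin.forall_fin_succ]
  simp only [consA_zero, consB_zero, consA_succ, consB_succ, one, one_mul, add_zero, Int.natAbs_natCast]

lemma good_of (ε : ℝ) (V B B' N : ℕ) (hB : B ≤ B') (hlog : 1 ≤ Real.log N) {k : ℕ} (a : Fin k → ℤ)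
    (h : HW consA consB ε V B' 1 N a) : Good ε V B N a := by
  intro hadm
  obtain ⟨S, hS0, hSt, hS⟩ := h (one k) (fun _ => one_ne_zero) (fun _ => by simpa [one] using hlog) (by
    intro p hp
    obtain ⟨n, hn1, hn2⟩ := hadm.2.2 p hp
    refine ⟨n, fun i => ?_⟩
    refine Fin.cases ?_ (fun i => ?_) i
    · simpa [consA_zero, consB_zero] using hn1
    · simpa [consA_succ, consB_succ, one] using hn2 i) (by
    intro i j hij
    have key : ∀ i : Fin (k + 1), consA (one k) i = 1 := by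
      intro i
      refine Fin.cases rfl (fun i => ?_) i
      simp [consA_succ, one]
    rw [key i, key j]
    refine ⟨fun h1 => ?_, fun h1 => by norm_num at h1⟩
    have h2 := h1.2
    revert hij h2
    refine Fin.cases ?_ (fun i => ?_) i
    · refine Fin.cases ?_ (fun j => ?_) j
      · intro hij _
        exact hij rfl
      · intro _ h2
        rw [consB_zero, consB_succ] at h2
        exact hadm.2.1 j h2.symm
    · refine Fin.cases ?_ (fun j => ?_) j
      · intro _ h2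
        rw [consB_zero, consB_succ] at h2
        exact hadm.2.1 i h2
      · intro hij h2
        rw [consB_succ, consB_succ] at h2
        exact hij (by rw [hadm.1 h2]))
  refine ⟨S, hS0, by rw [sing_eq]; exact hSt, fun y₁ y₂ h12 hy2 hΔ => ?_⟩
  rw [count_eq]
  exact hS y₁ y₂ h12.le (hy2.trans (Nat.mul_le_mul_right _ hB)) hΔ

lemma holds_of (k p A B B' C V U : ℕ) (hk : 1 ≤ k) (hB : B ≤ B') (ε : ℝ) (hε : 0 < ε) :
    ∃ N₀ : ℕ, ∀ N : ℕ, N₀ ≤ N → ∀ (x : Fin k → ℕ) (r : Fin k → ℕ → ℝ),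
      (∀ i, Pool.Agent.Q56.TF.Flo p B' C N (x i) (r i)) → Holds ε A B V U N x r := by
  classical
  obtain ⟨N₁, h1⟩ := fam_sys (sys_lam k hk) hk p V (B' + 1) C 1 (U + (A + 1) * k) ε hε
  obtain ⟨N₂, h2⟩ := Pool.Agent.Q56.TF.vec k A B' C p U
  obtain ⟨N₃, h3⟩ := Pool.Agent.H373R2.T7.ev_L' 1
  refine ⟨N₁ + N₂ + N₃, fun N hN x r hr => ?_⟩
  refine h2 N (by omega) x r hr (fun a => ¬ HW consA consB ε V (B' + 1) 1 N a) ?_ _ (filter_subset _ _) ?_
  · intro s hs hE 𝒮 h𝒮 hb
    exact h1 N (by omega) x s hs hE 𝒮 h𝒮 hb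
  · intro q hq
    obtain ⟨_, a, ha1, ha2⟩ := mem_filter.1 hq
    exact ⟨a, ha1, fun h => ha2 (good_of ε V B (B' + 1) N (by omega) (by exact_mod_cast h3 N (by omega)) a h)⟩

/-- Let `k ≥ 1`, `A`, `B`, `C`, `V`, `U` and `ε > 0` be fixed.

* For every `p` the following holds for all large `N`. For `i = 1, ..., k` let `r i 1, ..., r i (x i)` be an
  arbitrary family of real numbers in `[-B N, B N]` with an energy of order `p` of at most `log ^ C N` times
  `(x i) ^ (2 p) / N` (the minimal possible order of magnitude). For all vectors `m` in the box `1 ≤ m i ≤ x i`, with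
  at most `(∏ x i) / log ^ U N` exceptions, ALL admissible vectors `a` of distinct nonzero integers with
  `|a i - r i (m i)| ≤ log ^ A N` for all `i` satisfy the formula of Hardy and Littlewood: the singular series of
  `n, n + a 1, ..., n + a k` converges to some `S > 0`, and in all windows `y₁ < n ≤ y₂` with `y₂ ≤ B N` and
  `y₂ - y₁ ≥ N / log ^ V N` there are `(1 + O(ε)) S (y₂ - y₁) / log ^ (k + 1) N` primes `n` for which all
  `|n + a i|` are prime.
* This holds for `r i m = β i + f i m`, where each `f i` is one of the sequences `IsSeq` with the exponent `e i`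
  (`κ P(m)` with a polynomial `P` of degree `e i`, or `∑ w_y m ^ y` with the largest exponent `e i`), the `β i` are
  any real numbers with `|β i| ≤ B N`, and `N / log ^ C N ≤ (x i) ^ (e i) ≤ B N`. -/
theorem result (k A B C V U : ℕ) (hk : 1 ≤ k) (ε : ℝ) (hε : 0 < ε) :
    (∀ p : ℕ, ∃ N₀ : ℕ, ∀ N : ℕ, N₀ ≤ N →
      ∀ (x : Fin k → ℕ) (r : Fin k → ℕ → ℝ), (∀ i, ∀ m ∈ Icc 1 (x i), |r i m| ≤ B * N) →
      (∀ i, (energy p (x i) (r i) : ℝ) * N ≤ Real.log N ^ C * (x i : ℝ) ^ (2 * p)) →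
      Holds ε A B V U N x r) ∧
    (∀ (f : Fin k → ℕ → ℝ) (e : Fin k → ℝ), (∀ i, IsSeq (f i) (e i)) →
      ∃ N₀ : ℕ, ∀ N : ℕ, N₀ ≤ N → ∀ x : Fin k → ℕ,
      (∀ i, (x i : ℝ) ^ (e i) ≤ B * N) → (∀ i, (N : ℝ) ≤ Real.log N ^ C * (x i : ℝ) ^ (e i)) →
      ∀ β : Fin k → ℝ, (∀ i, |β i| ≤ B * N) →
      Holds ε A B V U N x (fun i m => β i + f i m)) := by
  classical
  refine ⟨fun p => ?_, fun f e hf => ?_⟩
  · obtain ⟨N₁, h1⟩ := Pool.Agent.Q56.TF.flo_of p B C
    obtain ⟨N₂, h2⟩ := holds_of k p A B (B + 1) (C + 1) V U hk (by omega) ε hε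
    exact ⟨N₁ + N₂, fun N hN x r hr hen => h2 N (by omega) x r fun i => h1 N (by omega) (x i) (r i) (hr i) (hen i)⟩
  · obtain ⟨p, B', C', N₁, h1⟩ := Pool.Agent.Q56.TF.flo_vec f e (fun i => (seq_base (hf i)).1)
      (fun i => (seq_base (hf i)).2) B C
    obtain ⟨N₃, h4⟩ := Pool.Agent.H373R2.T7.ev_L' 1
    obtain ⟨N₂, h2⟩ := holds_of k p A B (B + B') C' V U hk (by omega) ε hε
    exact ⟨N₁ + N₂ + N₃, fun N hN x hx1 hx2 β hβ => h2 N (by omega) x _ fun i =>
      (h1 N (by omega) x hx1 hx2 β hβ i).mono le_rfl (by omega) le_rfl (by exact_mod_cast h4 N (by omega))⟩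

end Pool.Agent.Results.MP_8923e7_nt.ShiftsNearRealSequences
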