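import Pool.Agent.TH935.TF9
import Pool.Agent.Q56.TF.Vec
import Pool.Agent.Q319.WN.Vec

/-!
# The quantitative prime k-tuples conjecture near almost all multiples of almost every real vector

For almost every real vector `y` the formula of Hardy and Littlewood, with windows for the primes, holds for ALL vectors
of shifts in windows of side `log ^ A N` around `m y`, for all `m ≤ N` but `N / log ^ U N`; and the same for the dilates
`(v m 1 y 1 + β m 1, ..., v m k y k + β m k)` with arbitrary real numbers of nearly linear growth.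

From the starting files: the formula for almost all vectors of shifts (`Pool.Agent.TH935.TF.fam_sys`).
-/

set_option autoImplicit false

namespace Pool.Agent.Results.MP_8923e7_nt.TuplesNearRealMultiples

open Finset Filter Topology MeasureTheory
open scoped ENNReal

/-- The number of the residue classes modulo `p` covered by `0, -a 1, ..., -a k`. -/
def nu {k : ℕ} (a : Fin k → ℤ) (p : ℕ) : ℕ :=
  ((range p).filter (fun n : ℕ => (p : ℤ) ∣ (n : ℤ) ∨ ∃ i, (p : ℤ) ∣ (n : ℤ) + a i)).card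

/-- The partial product over the primes `p ≤ z` of the singular series of Hardy and Littlewood for the `k + 1` forms
`n, n + a 1, ..., n + a k`. -/
noncomputable def sing {k : ℕ} (a : Fin k → ℤ) (z : ℕ) : ℝ :=
  ∏ p ∈ (Icc 1 z).filter Nat.Prime, (1 - (nu a p : ℝ) / p) / (1 - 1 / (p : ℝ)) ^ (k + 1)

/-- The number of the primes `n` with `y₁ < n ≤ y₂` such that `|n + a i|` is prime for every `i`. -/
def count {k : ℕ} (a : Fin k → ℤ) (y₁ y₂ : ℕ) : ℕ :=
  ((Ioc y₁ y₂).filter (fun n : ℕ => n.Prime ∧ ∀ i, ((n : ℤ) + a i).natAbs.Prime)).card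

/-- `(a 1, ..., a k)` is an admissible tuple of distinct nonzero integers. -/
def Admissible {k : ℕ} (a : Fin k → ℤ) : Prop :=
  Function.Injective a ∧ (∀ i, a i ≠ 0) ∧
    ∀ p : ℕ, p.Prime → ∃ n : ℤ, ¬ (p : ℤ) ∣ n ∧ ∀ i, ¬ (p : ℤ) ∣ n + a i

/-- The vector `a` of shifts is good: if it is admissible then its singular series converges to a positive number
`S`, and for all `y₁ < y₂ ≤ B N` with `y₂ - y₁ ≥ N / log ^ V N` the number of the primes `n` with `y₁ < n ≤ y₂` such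
that all `|n + a i|` are prime agrees with `S (y₂ - y₁) / log ^ (k + 1) N` up to a relative error of at most `ε`. -/
def Good (ε : ℝ) (V B N : ℕ) {k : ℕ} (a : Fin k → ℤ) : Prop :=
  Admissible a → ∃ S : ℝ, 0 < S ∧ Tendsto (sing a) atTop (𝓝 S) ∧
    ∀ y₁ y₂ : ℕ, y₁ < y₂ → y₂ ≤ B * N → (N : ℝ) / Real.log N ^ V ≤ (y₂ : ℝ) - y₁ →
      |(count a y₁ y₂ : ℝ) - S * ((y₂ : ℝ) - y₁) / Real.log N ^ (k + 1)| ≤
        ε * (S * ((y₂ : ℝ) - y₁) / Real.log N ^ (k + 1))

/-- ALL the vectors `a` of integers within `log ^ A N` of the real vector `z` are good. -/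
def AllGood (ε : ℝ) (A V B N : ℕ) {k : ℕ} (z : Fin k → ℝ) : Prop :=
  ∀ a : Fin k → ℤ, (∀ i, |(a i : ℝ) - z i| ≤ Real.log N ^ A) → Good ε V B N a

open Pool.Agent.TH935.TF

/-- all slopes equal to `1` -/
def one (k : ℕ) : Fin k → ℤ := fun _ => 1

lemma nu_eq {k : ℕ} (a : Fin k → ℤ) (p : ℕ) : nu a p = om (consA (one k)) (consB a) p := by
  unfold nu om
  congr 1
  apply filter_congr
  intro n _
  rw [Fin.exists_fin_succ]
  simp only [consA_zero, consB_zero, consA_succ, consB_succ, one, one_mul, add_zero]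

lemma sing_eq {k : ℕ} (a : Fin k → ℤ) : sing a = fun z => Gz (om (consA (one k)) (consB a)) (k + 1) z := by
  funext z
  unfold sing Gz Fq Pool.Agent.H373R2.T7.pz
  apply prod_congr rfl
  intro p _
  rw [nu_eq]

lemma count_eq {k : ℕ} (a : Fin k → ℤ) (y₁ y₂ : ℕ) : count a y₁ y₂ = cn (consA (one k)) (consB a) y₁ y₂ := by
  unfold count cn
  congr 1
  apply filter_congr
  intro n _
  rw [Fin.forall_fin_succ]
  simp only [consA_zero, consB_zero, consA_succ, consB_succ, one, one_mul, add_zero, Int.natAbs_natCast]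

lemma good_of (ε : ℝ) (V B B' N : ℕ) (hB : B ≤ B') (hlog : 1 ≤ Real.log N) {k : ℕ} (a : Fin k → ℤ)
    (h : HW consA consB ε V B' 1 N a) : Good ε V B N a := by
  intro hadm
  obtain ⟨S, hS0, hSt, hS⟩ := h (one k) (fun _ => one_ne_zero) (fun _ => by simpa [one] using hlog) (by
    intro p hp
    obtain ⟨n, hn1, hn2⟩ := hadm.2.2 p hp
    refine ⟨n, fun i => ?_⟩
    refine Fin.cases ?_ (fun i => ?_) i
    · simpa [consA_zero, consB_zero] using hn1
    · simpa [consA_succ, consB_succ, one] using hn2 i) (by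
    intro i j hij
    have key : ∀ i : Fin (k + 1), consA (one k) i = 1 := by
      intro i
      refine Fin.cases rfl (fun i => ?_) i
      simp [consA_succ, one]
    rw [key i, key j]
    refine ⟨fun h1 => ?_, fun h1 => by norm_num at h1⟩
    have h2 := h1.2
    revert hij h2
    refine Fin.cases ?_ (fun i => ?_) i
    · refine Fin.cases ?_ (fun j => ?_) j
      · intro hij _
        exact hij rfl
      · intro _ h2
        rw [consB_zero, consB_succ] at h2
        exact hadm.2.1 j h2.symm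
    · refine Fin.cases ?_ (fun j => ?_) j
      · intro _ h2
        rw [consB_zero, consB_succ] at h2
        exact hadm.2.1 i h2
      · intro hij h2
        rw [consB_succ, consB_succ] at h2
        exact hij (by rw [hadm.1 h2]))
  refine ⟨S, hS0, by rw [sing_eq]; exact hSt, fun y₁ y₂ h12 hy2 hΔ => ?_⟩
  rw [count_eq]
  exact hS y₁ y₂ h12.le (hy2.trans (Nat.mul_le_mul_right _ hB)) hΔ

lemma Good.mono {ε : ℝ} {V B B' N : ℕ} (hB : B ≤ B') {k : ℕ} {a : Fin k → ℤ} (h : Good ε V B' N a) :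
    Good ε V B N a := by
  intro hadm
  obtain ⟨S, h1, h2, h3⟩ := h hadm
  exact ⟨S, h1, h2, fun y₁ y₂ h12 hy => h3 y₁ y₂ h12 (hy.trans (Nat.mul_le_mul_right _ hB))⟩

lemma holds_of (k p A B B' C V U : ℕ) (hk : 1 ≤ k) (hB : B ≤ B') (ε : ℝ) (hε : 0 < ε) :
    ∃ N₀ : ℕ, ∀ N : ℕ, N₀ ≤ N → ∀ (x : Fin k → ℕ) (r : Fin k → ℕ → ℝ),
      (∀ i, Pool.Agent.Q56.TF.Flo p B' C N (x i) (r i)) → ∀ S : Finset (Fin k → ℕ),
      S ⊆ Fintype.piFinset (fun i => Icc 1 (x i)) →
      (∀ q ∈ S, ∃ a : Fin k → ℤ, (∀ i, |(a i : ℝ) - r i (q i)| ≤ Real.log N ^ A) ∧ ¬ Good ε V B N a) →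
      (S.card : ℝ) ≤ (∏ i, (x i : ℝ)) / Real.log N ^ U := by
  classical
  obtain ⟨N₁, h1⟩ := fam_sys (sys_lam k hk) hk p V (B' + 1) C 1 (U + (A + 1) * k) ε hε
  obtain ⟨N₂, h2⟩ := Pool.Agent.Q56.TF.vec k A B' C p U
  obtain ⟨N₃, h3⟩ := Pool.Agent.H373R2.T7.ev_L' 1
  refine ⟨N₁ + N₂ + N₃, fun N hN x r hr S hS hq => ?_⟩
  refine h2 N (by omega) x r hr (fun a => ¬ HW consA consB ε V (B' + 1) 1 N a) ?_ _ hS ?_
  · intro s hs hE 𝒮 h𝒮 hb
    exact h1 N (by omega) x s hs hE 𝒮 h𝒮 hb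
  · intro q hqS
    obtain ⟨a, ha1, ha2⟩ := hq q hqS
    exact ⟨a, ha1, fun h => ha2 (good_of ε V B (B' + 1) N (by omega) (by exact_mod_cast h3 N (by omega)) a h)⟩

lemma box (k A H V U : ℕ) (hk : 1 ≤ k) (hH : 1 ≤ H) (ε : ℝ) (hε : 0 < ε) :
    ∃ N₀ : ℕ, ∀ N : ℕ, N₀ ≤ N → ∀ S : Finset (Fin k → ℕ),
      S ⊆ Fintype.piFinset (fun _ => Icc 1 (2 * H * N + 2)) →
      (∀ q ∈ S, ∃ a : Fin k → ℤ, (∀ i, |(a i : ℝ) - ((q i : ℝ) - (H * N + 1))| ≤ Real.log N ^ A) ∧
        ¬ Good ε V H N a) →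
      (S.card : ℝ) ≤ (2 * H * N + 2 : ℝ) ^ k / Real.log N ^ U := by
  classical
  have hbase : Pool.Agent.Q56.TF.Base (fun m : ℕ => (m : ℝ)) 1 := by
    have h := Pool.Agent.Q56.TF.base_poly (Polynomial.X : Polynomial ℤ) (by simp)
    simpa using h
  obtain ⟨p, B', C', N₁, h1⟩ := Pool.Agent.Q56.TF.flo_vec (k := k) (fun _ m => (m : ℝ)) (fun _ => 1)
    (fun _ => hbase) (fun _ => le_rfl) (2 * H + 2) 1
  obtain ⟨N₃, h4⟩ := Pool.Agent.H373R2.T7.ev_L' 1
  obtain ⟨N₂, h2⟩ := holds_of k p A H (H + B') C' V U hk (by omega) ε hε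
  refine ⟨N₁ + N₂ + N₃ + 1, fun N hN S hS hq => ?_⟩
  have hlog : (1 : ℝ) ≤ Real.log N := by exact_mod_cast h4 N (by omega)
  have hN1 : (1 : ℝ) ≤ N := by exact_mod_cast (by omega : 1 ≤ N)
  have hH0 : (0 : ℝ) ≤ H := Nat.cast_nonneg _
  have hHN : (0 : ℝ) ≤ H * N := by positivity
  have h5 := h2 N (by omega) (fun _ => 2 * H * N + 2) (fun _ m => -(H * N + 1 : ℝ) + (m : ℝ)) (fun i =>
    (h1 N (by omega) (fun _ => 2 * H * N + 2) (fun _ => by
        push_cast
        rw [Real.rpow_one]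
        nlinarith) (fun _ => by
        push_cast
        rw [Real.rpow_one, pow_one]
        have : (1 : ℝ) ≤ H := by exact_mod_cast hH
        nlinarith [mul_nonneg (sub_nonneg.2 hlog) hHN]) (fun _ => -(H * N + 1 : ℝ)) (fun _ => by
        push_cast
        rw [abs_neg, abs_of_nonneg (by positivity)]
        nlinarith) i).mono le_rfl (by omega) le_rfl hlog) S hS (fun q hqS => by
        obtain ⟨a, ha1, ha2⟩ := hq q hqS
        refine ⟨a, fun i => ?_, ha2⟩
        have := ha1 i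
        rwa [show (-(H * N + 1 : ℝ) + (q i : ℝ)) = (q i : ℝ) - (H * N + 1) by ring])
  refine h5.trans (le_of_eq ?_)
  rw [prod_const, card_univ, Fintype.card_fin]
  push_cast
  rfl

lemma bad_meas (k A B C V U : ℕ) (hk : 1 ≤ k) (ε : ℝ) (hε : 0 < ε) :
    ∃ N₀ : ℕ, ∀ N : ℕ, N₀ ≤ N → ∀ v β : Fin k → ℝ, (∀ i, (N : ℝ) ≤ Real.log N ^ C * |v i|) →
      (∀ i, |v i| ≤ B * N) → (∀ i, |β i| ≤ B * N) →
      ∃ F : Set (Fin k → ℝ), MeasurableSet F ∧ volume F ≤ ENNReal.ofReal (1 / Real.log N ^ U) ∧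
        ∀ y : Fin k → ℝ, (∀ i, |y i| ≤ B) → ¬ AllGood ε A V B N (fun i => v i * y i + β i) → y ∈ F := by
  classical
  obtain ⟨H, hH⟩ : ∃ H : ℕ, H = B * B + B + 1 := ⟨_, rfl⟩
  obtain ⟨N₁, h1⟩ := box k (A + 1) H V (U + (C + 1) * k) hk (by omega) ε hε
  obtain ⟨N₂, h2⟩ := Pool.Agent.H373R2.T7.ev_L' (2 * H + 2)
  refine ⟨N₁ + N₂ + 1, fun N hN v β hv1 hv2 hβ => ?_⟩
  have hL : ((2 * H + 2 : ℕ) : ℝ) ≤ Real.log N := by exact_mod_cast h2 N (by omega)
  push_cast at hL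
  have hH1 : (1 : ℝ) ≤ H := by exact_mod_cast (by omega : 1 ≤ H)
  have hL1 : 1 ≤ Real.log N := by linarith
  have hL0 : 0 < Real.log N := by linarith
  have hN1 : (1 : ℝ) ≤ N := by exact_mod_cast (by omega : 1 ≤ N)
  have hN0 : (0 : ℝ) < N := by linarith
  have hBH : (B : ℝ) * B + B + 1 = H := by rw [hH]; push_cast; ring
  have hB0 : (0 : ℝ) ≤ B := Nat.cast_nonneg _
  have hv0 : ∀ i, 0 < |v i| := by
    intro i
    rcases (abs_nonneg (v i)).eq_or_lt with h | h
    · have := hv1 i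
      rw [← h, mul_zero] at this
      linarith
    · exact h
  obtain ⟨S, hS⟩ : ∃ S : Finset (Fin k → ℕ), S = (Fintype.piFinset (fun _ : Fin k => Icc 1 (2 * H * N + 2))).filter
      (fun q => ∃ a : Fin k → ℤ, (∀ i, |(a i : ℝ) - ((q i : ℝ) - (H * N + 1))| ≤ Real.log N ^ (A + 1)) ∧
        ¬ Good ε V H N a) := ⟨_, rfl⟩
  have hcard : (S.card : ℝ) ≤ (2 * H * N + 2 : ℝ) ^ k / Real.log N ^ (U + (C + 1) * k) :=
    h1 N (by omega) S (by rw [hS]; exact filter_subset _ _) (fun q hq => by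
      rw [hS] at hq
      exact (mem_filter.1 hq).2)
  obtain ⟨c, hc⟩ : ∃ c : (Fin k → ℕ) → Fin k → ℝ, c = fun q i => ((q i : ℝ) - (H * N + 1) + 1 / 2 - β i) / v i :=
    ⟨_, rfl⟩
  refine ⟨⋃ q ∈ S, Set.Icc (fun i => c q i - 1 / (2 * |v i|)) (fun i => c q i + 1 / (2 * |v i|)), ?_, ?_, ?_⟩
  · exact S.measurableSet_biUnion fun q _ => measurableSet_Icc
  · refine (measure_biUnion_finset_le S _).trans ?_
    have h3 : ∀ q ∈ S, volume (Set.Icc (fun i => c q i - 1 / (2 * |v i|)) (fun i => c q i + 1 / (2 * |v i|))) ≤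
        ENNReal.ofReal ((Real.log N ^ C / N) ^ k) := by
      intro q _
      rw [Real.volume_Icc_pi]
      calc ∏ i, ENNReal.ofReal ((c q i + 1 / (2 * |v i|)) - (c q i - 1 / (2 * |v i|)))
          ≤ ∏ _i : Fin k, ENNReal.ofReal (Real.log N ^ C / N) := by
            refine Finset.prod_le_prod' fun i _ => ENNReal.ofReal_le_ofReal ?_
            have h4 := hv0 i
            have h5 : (c q i + 1 / (2 * |v i|)) - (c q i - 1 / (2 * |v i|)) = 1 / |v i| := by
              field_simp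
              ring
            rw [h5, div_le_div_iff₀ h4 hN0, one_mul]
            exact hv1 i
        _ = ENNReal.ofReal ((Real.log N ^ C / N) ^ k) := by
            rw [prod_const, card_univ, Fintype.card_fin, ENNReal.ofReal_pow (by positivity)]
    refine (Finset.sum_le_sum h3).trans ?_
    rw [sum_const, nsmul_eq_mul, ← ENNReal.ofReal_natCast, ← ENNReal.ofReal_mul (Nat.cast_nonneg _)]
    apply ENNReal.ofReal_le_ofReal
    calc (S.card : ℝ) * (Real.log N ^ C / N) ^ k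
        ≤ (2 * H * N + 2 : ℝ) ^ k / Real.log N ^ (U + (C + 1) * k) * (Real.log N ^ C / N) ^ k := by
          apply mul_le_mul_of_nonneg_right hcard (by positivity)
      _ = ((2 * H * N + 2 : ℝ) / N * Real.log N ^ C) ^ k / Real.log N ^ (U + (C + 1) * k) := by
          rw [mul_pow, div_pow, div_pow]
          field_simp
      _ ≤ (Real.log N ^ (C + 1)) ^ k / Real.log N ^ (U + (C + 1) * k) := by
          apply div_le_div_of_nonneg_right _ (by positivity)
          apply pow_le_pow_left₀ (by positivity)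
          rw [pow_succ, mul_comm (Real.log N ^ C)]
          apply mul_le_mul_of_nonneg_right _ (by positivity)
          refine le_trans ?_ hL
          rw [div_le_iff₀ hN0]
          nlinarith
      _ = 1 / Real.log N ^ U := by
          rw [← pow_mul, pow_add]
          field_simp
  · intro y hy hbad
    unfold AllGood at hbad
    push Not at hbad
    obtain ⟨a, ha1, ha2⟩ := hbad
    have hz : ∀ i, |v i * y i + β i| ≤ H * N - 1 := by
      intro i
      calc |v i * y i + β i| ≤ |v i * y i| + |β i| := abs_add_le _ _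
        _ ≤ B * N * B + B * N := by
            rw [abs_mul]
            exact add_le_add (mul_le_mul (hv2 i) (hy i) (abs_nonneg _) (by positivity)) (hβ i)
        _ ≤ H * N - 1 := by
            rw [← hBH]
            nlinarith
    have hfl : ∀ i, -(H * N : ℝ) ≤ ⌊v i * y i + β i⌋ ∧ (⌊v i * y i + β i⌋ : ℝ) ≤ H * N := by
      intro i
      have h3 := abs_le.1 (hz i)
      have h4 := Int.floor_le (v i * y i + β i)
      have h5 := Int.lt_floor_add_one (v i * y i + β i)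
      constructor <;> linarith
    have hfl' : ∀ i, -((H : ℤ) * N) ≤ ⌊v i * y i + β i⌋ ∧ ⌊v i * y i + β i⌋ ≤ (H : ℤ) * N := by
      intro i
      have := hfl i
      constructor
      · exact_mod_cast this.1
      · exact_mod_cast this.2
    obtain ⟨q, hq⟩ : ∃ q : Fin k → ℕ, q = fun i => (⌊v i * y i + β i⌋ + (H : ℤ) * N + 1).toNat := ⟨_, rfl⟩
    have hq1 : ∀ i, ((q i : ℕ) : ℤ) = ⌊v i * y i + β i⌋ + (H : ℤ) * N + 1 := by
      intro i
      rw [hq]
      exact Int.toNat_of_nonneg (by have := (hfl' i).1; linarith)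
    have hq2 : ∀ i, (q i : ℝ) - (H * N + 1) = ⌊v i * y i + β i⌋ := by
      intro i
      have h3 : ((q i : ℕ) : ℝ) = ((⌊v i * y i + β i⌋ + (H : ℤ) * N + 1 : ℤ) : ℝ) := by
        rw [← hq1 i]
        simp
      rw [h3]
      push_cast
      ring
    have hqS : q ∈ S := by
      rw [hS, mem_filter, Fintype.mem_piFinset]
      refine ⟨fun i => ?_, a, fun i => ?_, fun h => ha2 (h.mono ?_)⟩
      · have h3 := hfl' i
        have h4 := hq1 i
        rw [Finset.mem_Icc]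
        have h5 : ((2 * H * N + 2 : ℕ) : ℤ) = 2 * ((H : ℤ) * N) + 2 := by push_cast; ring
        constructor
        · zify; linarith
        · zify [h5]
          push_cast at h5 ⊢
          linarith
      · rw [hq2 i]
        have h3 := ha1 i
        have h4 := Int.floor_le (v i * y i + β i)
        have h5 := Int.lt_floor_add_one (v i * y i + β i)
        have h6 : |(v i * y i + β i) - ⌊v i * y i + β i⌋| ≤ 1 := by
          rw [abs_le]
          constructor <;> linarith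
        have h7 : (1 : ℝ) ≤ Real.log N ^ A := one_le_pow₀ hL1
        calc |(a i : ℝ) - ⌊v i * y i + β i⌋| = |((a i : ℝ) - (v i * y i + β i)) +
              ((v i * y i + β i) - ⌊v i * y i + β i⌋)| := by congr 1; ring
          _ ≤ Real.log N ^ A + 1 := (abs_add_le _ _).trans (add_le_add h3 h6)
          _ ≤ Real.log N ^ (A + 1) := by
              rw [pow_succ]
              nlinarith
      · rw [hH]
        have : 0 ≤ B * B := Nat.zero_le _
        omega
    refine Set.mem_biUnion hqS ?_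
    have hclose : ∀ i, |y i - c q i| ≤ 1 / (2 * |v i|) := by
      intro i
      have h4 := Int.floor_le (v i * y i + β i)
      have h5 := Int.lt_floor_add_one (v i * y i + β i)
      have hvi : v i ≠ 0 := abs_pos.1 (hv0 i)
      have h6 : y i - c q i = ((v i * y i + β i) - ⌊v i * y i + β i⌋ - 1 / 2) / v i := by
        rw [hc]
        simp only []
        rw [hq2 i]
        field_simp
        ring
      rw [h6, abs_div, div_le_div_iff₀ (hv0 i) (by have := hv0 i; positivity)]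
      have h7 : |(v i * y i + β i) - ⌊v i * y i + β i⌋ - 1 / 2| ≤ 1 / 2 := by
        rw [abs_le]
        constructor <;> linarith
      have := hv0 i
      nlinarith
    rw [Set.mem_Icc]
    refine ⟨fun i => ?_, fun i => ?_⟩
    · have := abs_le.1 (hclose i)
      simp only []
      linarith
    · have := abs_le.1 (hclose i)
      simp only []
      linarith

open Classical in
lemma many (k A B C V U : ℕ) (hk : 1 ≤ k) (ε : ℝ) (hε : 0 < ε) :
    ∃ N₀ : ℕ, ∀ N : ℕ, N₀ ≤ N → ∀ (M : Finset ℕ) (v β : ℕ → Fin k → ℝ),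
      (∀ m ∈ M, ∀ i, (N : ℝ) ≤ Real.log N ^ C * |v m i| ∧ |v m i| ≤ B * N ∧ |β m i| ≤ B * N) →
      ∃ E : Set (Fin k → ℝ), MeasurableSet E ∧ volume E ≤ ENNReal.ofReal (1 / Real.log N ^ U) ∧
        ∀ y : Fin k → ℝ, (∀ i, |y i| ≤ B) → y ∉ E →
          ((M.filter fun m => ¬ AllGood ε A V B N (fun i => v m i * y i + β m i)).card : ℝ) ≤
            M.card / Real.log N ^ U := by
  obtain ⟨N₁, h1⟩ := bad_meas k A B C V (U + U) hk ε hε
  obtain ⟨N₂, h2⟩ := Pool.Agent.H373R2.T7.ev_L' 1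
  refine ⟨N₁ + N₂, fun N hN M v β hM => ?_⟩
  have hL1 : (1 : ℝ) ≤ Real.log N := by exact_mod_cast h2 N (by omega)
  have hL0 : 0 < Real.log N := by linarith
  rcases M.eq_empty_or_nonempty with rfl | hne
  · exact ⟨∅, MeasurableSet.empty, by simp, fun y _ _ => by simp⟩
  have h3 : ∀ m : ℕ, ∃ F : Set (Fin k → ℝ), m ∈ M → (MeasurableSet F ∧
      volume F ≤ ENNReal.ofReal (1 / Real.log N ^ (U + U)) ∧
        ∀ y : Fin k → ℝ, (∀ i, |y i| ≤ B) → ¬ AllGood ε A V B N (fun i => v m i * y i + β m i) → y ∈ F) := by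
    intro m
    by_cases hm : m ∈ M
    · obtain ⟨F, hF⟩ := h1 N (by omega) (v m) (β m) (fun i => (hM m hm i).1) (fun i => (hM m hm i).2.1)
        (fun i => (hM m hm i).2.2)
      exact ⟨F, fun _ => hF⟩
    · exact ⟨∅, fun h => absurd h hm⟩
  choose F hF using h3
  obtain ⟨E, hE1, hE2, hE3⟩ := Pool.Agent.Q319.WN.markov M F (fun m hm => (hF m hm).1)
    (a := 1 / Real.log N ^ (U + U)) (δ := 1 / Real.log N ^ U) (by positivity) (card_pos.2 hne)
    (fun m hm => (hF m hm).2.1)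
  refine ⟨E, hE1, hE2.trans (le_of_eq ?_), fun y hy hyE => ?_⟩
  · congr 1
    rw [pow_add]
    field_simp
  · have h4 := hE3 y hyE
    refine le_trans ?_ (h4.trans (le_of_eq (by ring)))
    rw [← Set.ncard_coe_finset]
    apply Nat.cast_le.2
    apply Set.ncard_le_ncard
    · intro m hm
      rw [Finset.mem_coe, mem_filter] at hm
      exact ⟨hm.1, (hF m hm.1).2.2 y hy hm.2⟩
    · exact (Finset.finite_toSet M).subset fun m hm => hm.1

lemma good_scale (k A V B : ℕ) (ε : ℝ) (hε : 0 < ε) :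
    ∃ N₀ : ℕ, ∀ N N' : ℕ, N₀ ≤ N → N ≤ N' → N' ≤ 2 * N → ∀ z : Fin k → ℝ,
      AllGood (min ε 1 / 4) (A + 1) (V + 1) (2 * B) N z → AllGood ε A V B N' z := by
  obtain ⟨δ, hδ⟩ : ∃ δ : ℝ, δ = min ε 1 := ⟨_, rfl⟩
  have hδ0 : 0 < δ := by rw [hδ]; exact lt_min hε one_pos
  have hδ1 : δ ≤ 1 := by rw [hδ]; exact min_le_right _ _
  have hδε : δ ≤ ε := by rw [hδ]; exact min_le_left _ _
  have hlog : Tendsto (fun N : ℕ => Real.log N) atTop atTop := Real.tendsto_log_atTop.comp tendsto_natCast_atTop_atTop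
  have ht : Tendsto (fun N : ℕ => (1 + 1 / Real.log N) ^ (k + 1)) atTop (𝓝 1) := by
    have h1 : Tendsto (fun N : ℕ => 1 / Real.log N) atTop (𝓝 0) := tendsto_const_nhds.div_atTop hlog
    have h2 := (h1.const_add 1).pow (k + 1)
    simpa using h2
  have hev : ∀ᶠ N : ℕ in atTop, (1 + 1 / Real.log N) ^ (k + 1) ≤ 1 + δ / 4 :=
    (ht.eventually_lt_const (by linarith : (1 : ℝ) < 1 + δ / 4)).mono fun N hN => hN.le
  obtain ⟨N₁, h1⟩ := eventually_atTop.1 hev
  obtain ⟨N₂, h2⟩ := Pool.Agent.H373R2.T7.ev_L' (2 ^ (A + V))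
  rw [← hδ]
  refine ⟨N₁ + N₂ + 1, fun N N' hN h12 h21 z hz a ha => ?_⟩
  have hL : ((2 ^ (A + V) : ℕ) : ℝ) ≤ Real.log N := by exact_mod_cast h2 N (by omega)
  push_cast at hL
  have hN1 : (1 : ℝ) ≤ N := by exact_mod_cast (by omega : 1 ≤ N)
  have h2A : (2 : ℝ) ^ A ≤ Real.log N :=
    (pow_le_pow_right₀ (by norm_num) (by omega)).trans hL
  have h2V : (2 : ℝ) ^ V ≤ Real.log N :=
    (pow_le_pow_right₀ (by norm_num) (by omega)).trans hL
  have hl1 : 1 ≤ Real.log N := (one_le_pow₀ (by norm_num)).trans h2A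
  have hl0 : 0 < Real.log N := by linarith
  have hNN : (N : ℝ) ≤ N' := by exact_mod_cast h12
  have hlL : Real.log N ≤ Real.log N' := Real.log_le_log (by linarith) hNN
  have hLl : Real.log N' ≤ Real.log N + 1 := by
    have h3 : (N' : ℝ) ≤ 2 * N := by exact_mod_cast h21
    have h4 : Real.log N' ≤ Real.log (2 * N) := Real.log_le_log (by linarith) h3
    rw [Real.log_mul (by norm_num) (by linarith)] at h4
    have := Real.log_two_lt_d9
    linarith
  have hL0 : 0 < Real.log N' := by linarith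
  have hL2 : Real.log N' ≤ 2 * Real.log N := by linarith
  have hgood := hz a (fun i => (ha i).trans (by
    calc Real.log N' ^ A ≤ (2 * Real.log N) ^ A := pow_le_pow_left₀ hL0.le hL2 _
      _ = 2 ^ A * Real.log N ^ A := mul_pow _ _ _
      _ ≤ Real.log N * Real.log N ^ A := mul_le_mul_of_nonneg_right h2A (by positivity)
      _ = Real.log N ^ (A + 1) := by rw [pow_succ, mul_comm]))
  intro hadm
  obtain ⟨S, hS0, hSt, hS⟩ := hgood hadm
  refine ⟨S, hS0, hSt, fun y₁ y₂ hy hy2 hΔ => ?_⟩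
  have h3 := hS y₁ y₂ hy (hy2.trans (by
    calc B * N' ≤ B * (2 * N) := Nat.mul_le_mul_left _ h21
      _ = 2 * B * N := by ring)) (le_trans (by
    rw [div_le_div_iff₀ (by positivity) (by positivity)]
    calc (N : ℝ) * Real.log N' ^ V ≤ N' * (2 * Real.log N) ^ V :=
          mul_le_mul hNN (pow_le_pow_left₀ hL0.le hL2 _) (by positivity) (by positivity)
      _ = N' * (2 ^ V * Real.log N ^ V) := by rw [mul_pow]
      _ ≤ N' * (Real.log N * Real.log N ^ V) := by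
          apply mul_le_mul_of_nonneg_left _ (by positivity)
          exact mul_le_mul_of_nonneg_right h2V (by positivity)
      _ = N' * Real.log N ^ (V + 1) := by rw [pow_succ, mul_comm (Real.log N ^ V)]) hΔ)
  obtain ⟨X, hX⟩ : ∃ X : ℝ, X = S * ((y₂ : ℝ) - y₁) := ⟨_, rfl⟩
  have hX0 : 0 ≤ X := by
    rw [hX]
    have : (y₁ : ℝ) ≤ y₂ := by exact_mod_cast hy.le
    exact mul_nonneg hS0.le (by linarith)
  rw [← hX] at h3 ⊢
  have hP : Real.log N' ^ (k + 1) ≤ (1 + δ / 4) * Real.log N ^ (k + 1) := by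
    calc Real.log N' ^ (k + 1) ≤ ((1 + 1 / Real.log N) * Real.log N) ^ (k + 1) := by
          apply pow_le_pow_left₀ hL0.le
          rw [add_mul, one_mul, one_div, inv_mul_cancel₀ hl0.ne']
          exact hLl
      _ = (1 + 1 / Real.log N) ^ (k + 1) * Real.log N ^ (k + 1) := mul_pow _ _ _
      _ ≤ (1 + δ / 4) * Real.log N ^ (k + 1) := mul_le_mul_of_nonneg_right (h1 N (by omega)) (by positivity)
  have hQ : Real.log N ^ (k + 1) ≤ Real.log N' ^ (k + 1) := pow_le_pow_left₀ hl0.le hlL _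
  have hM1 : X / Real.log N' ^ (k + 1) ≤ X / Real.log N ^ (k + 1) :=
    div_le_div_of_nonneg_left hX0 (by positivity) hQ
  have hM2 : X / Real.log N ^ (k + 1) ≤ (1 + δ / 4) * (X / Real.log N' ^ (k + 1)) := by
    rw [← mul_div_assoc, div_le_div_iff₀ (by positivity) (by positivity)]
    calc X * Real.log N' ^ (k + 1) ≤ X * ((1 + δ / 4) * Real.log N ^ (k + 1)) := mul_le_mul_of_nonneg_left hP hX0
      _ = (1 + δ / 4) * X * Real.log N ^ (k + 1) := by ring
  have hM0 : 0 ≤ X / Real.log N' ^ (k + 1) := by positivity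
  obtain ⟨M, hM⟩ : ∃ M : ℝ, M = X / Real.log N ^ (k + 1) := ⟨_, rfl⟩
  obtain ⟨M', hM'⟩ : ∃ M' : ℝ, M' = X / Real.log N' ^ (k + 1) := ⟨_, rfl⟩
  rw [← hM] at h3 hM1 hM2
  rw [← hM'] at hM1 hM2 hM0 ⊢
  have h4 := abs_le.1 h3
  have h5 : δ / 4 * M ≤ δ / 4 * ((1 + δ / 4) * M') := mul_le_mul_of_nonneg_left hM2 (by linarith)
  have h6 : δ / 4 * ((1 + δ / 4) * M') ≤ δ / 2 * M' := by
    nlinarith [mul_nonneg hδ0.le hM0]
  have h7 : δ * M' ≤ ε * M' := mul_le_mul_of_nonneg_right hδε hM0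
  have h8 : 0 ≤ δ * M' := mul_nonneg hδ0.le hM0
  rw [abs_le]
  constructor <;> linarith

open Classical in
lemma ae_one (k A B C D V U T : ℕ) (hk : 1 ≤ k) (ε : ℝ) (hε : 0 < ε) (v β : ℕ → Fin k → ℝ)
    (h : ∀ m : ℕ, 2 ≤ m → ∀ i, (m : ℝ) ≤ Real.log m ^ C * |v m i| ∧ |v m i| ≤ D * m ∧ |β m i| ≤ D * m) :
    ∀ᵐ y : Fin k → ℝ, (∀ i, |y i| ≤ T) → ∀ᶠ N : ℕ in atTop,
      (((Icc 1 N).filter fun m => ¬ AllGood ε A V B N (fun i => v m i * y i + β m i)).card : ℝ) ≤
        N / Real.log N ^ U := by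
  obtain ⟨B1, hB1⟩ : ∃ B1 : ℕ, B1 = 2 * B + 2 * D + T := ⟨_, rfl⟩
  obtain ⟨N₁, h1⟩ := many k (A + 1) B1 (U + 2 + (C + 1)) (V + 1) (U + 3) hk (min ε 1 / 4)
    (by have := lt_min hε one_pos; linarith)
  obtain ⟨N₂, h2⟩ := good_scale k A V B ε hε
  obtain ⟨N₃, h3⟩ := Pool.Agent.H373R2.T7.ev_L' (3 * 2 ^ U * 2 ^ C)
  obtain ⟨N₄, h4⟩ : ∃ N₄ : ℕ, ∀ N : ℕ, N₄ ≤ N → Real.log N ^ (U + 2) ≤ N := by
    have h5 := (Real.isLittleO_pow_log_id_atTop (n := U + 2)).bound one_pos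
    have h6 := tendsto_natCast_atTop_atTop.eventually h5
    obtain ⟨N₄, h7⟩ := eventually_atTop.1 h6
    refine ⟨N₄, fun N hN => ?_⟩
    have h8 := h7 N hN
    simp only [id_eq, one_mul, Real.norm_eq_abs, Nat.abs_cast] at h8
    exact (le_abs_self _).trans h8
  obtain ⟨N₀, hN₀⟩ : ∃ N₀ : ℕ, N₀ = N₁ + N₂ + N₃ + N₄ + 2 := ⟨_, rfl⟩
  obtain ⟨M, hM⟩ : ∃ M : ℕ → Finset ℕ, M = fun j => (Icc 2 (2 ^ (j + 1))).filter
    (fun m : ℕ => ((2 ^ j : ℕ) : ℝ) ≤ Real.log ((2 ^ j : ℕ) : ℝ) ^ (U + 2) * m) := ⟨_, rfl⟩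
  have hl : ∀ j : ℕ, N₀ ≤ 2 ^ j → (3 * 2 ^ U * 2 ^ C : ℝ) ≤ Real.log ((2 ^ j : ℕ) : ℝ) := by
    intro j hj
    have := h3 (2 ^ j) (by omega)
    exact_mod_cast this
  have hU1 : (1 : ℝ) ≤ 2 ^ U := one_le_pow₀ (by norm_num)
  have hC1 : (1 : ℝ) ≤ 2 ^ C := one_le_pow₀ (by norm_num)
  have hUC : (1 : ℝ) ≤ 2 ^ U * 2 ^ C := by nlinarith
  have key : ∀ j : ℕ, ∃ E : Set (Fin k → ℝ), volume E ≤ ENNReal.ofReal (1 / (Real.log 2) ^ 2 * (1 / (j : ℝ) ^ 2)) ∧
      (N₀ ≤ 2 ^ j → ∀ y : Fin k → ℝ, (∀ i, |y i| ≤ B1) → y ∉ E →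
        (((M j).filter fun m => ¬ AllGood (min ε 1 / 4) (A + 1) (V + 1) B1 (2 ^ j)
          (fun i => v m i * y i + β m i)).card : ℝ) ≤ (M j).card / Real.log ((2 ^ j : ℕ) : ℝ) ^ (U + 3)) := by
    intro j
    by_cases hj : N₀ ≤ 2 ^ j
    · have hlj := hl j hj
      have hl1 : 1 ≤ Real.log ((2 ^ j : ℕ) : ℝ) := by nlinarith
      obtain ⟨E, -, hE2, hE3⟩ := h1 (2 ^ j) (by omega) (M j) v β (fun m hm i => by
        rw [hM] at hm
        obtain ⟨hm1, hm2⟩ := mem_filter.1 hm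
        obtain ⟨hm3, hm4⟩ := Finset.mem_Icc.1 hm1
        obtain ⟨g1, g2, g3⟩ := h m hm3 i
        have hm1' : (1 : ℝ) < m := by exact_mod_cast (by omega : 1 < m)
        have hlm0 : 0 ≤ Real.log m := Real.log_nonneg hm1'.le
        have hlm : Real.log m ≤ 2 * Real.log ((2 ^ j : ℕ) : ℝ) := by
          have g4 : (m : ℝ) ≤ ((2 ^ j : ℕ) : ℝ) * 2 := by
            have : m ≤ 2 ^ j * 2 := by rw [← pow_succ]; exact hm4
            exact_mod_cast this
          have g5 : Real.log m ≤ Real.log (((2 ^ j : ℕ) : ℝ) * 2) := Real.log_le_log (by linarith) g4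
          rw [Real.log_mul (by positivity) (by norm_num)] at g5
          have := Real.log_two_lt_d9
          linarith
        have hm5 : (m : ℝ) ≤ 2 * ((2 ^ j : ℕ) : ℝ) := by
          have : m ≤ 2 * 2 ^ j := by rw [← pow_succ']; exact hm4
          exact_mod_cast this
        refine ⟨?_, ?_, ?_⟩
        · calc ((2 ^ j : ℕ) : ℝ) ≤ Real.log ((2 ^ j : ℕ) : ℝ) ^ (U + 2) * m := hm2
            _ ≤ Real.log ((2 ^ j : ℕ) : ℝ) ^ (U + 2) * (Real.log m ^ C * |v m i|) :=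
                mul_le_mul_of_nonneg_left g1 (by positivity)
            _ ≤ Real.log ((2 ^ j : ℕ) : ℝ) ^ (U + 2) * ((2 * Real.log ((2 ^ j : ℕ) : ℝ)) ^ C * |v m i|) := by
                apply mul_le_mul_of_nonneg_left _ (by positivity)
                apply mul_le_mul_of_nonneg_right _ (abs_nonneg _)
                exact pow_le_pow_left₀ hlm0 hlm _
            _ ≤ Real.log ((2 ^ j : ℕ) : ℝ) ^ (U + 2) * (Real.log ((2 ^ j : ℕ) : ℝ) ^ (C + 1) * |v m i|) := by
                apply mul_le_mul_of_nonneg_left _ (by positivity)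
                apply mul_le_mul_of_nonneg_right _ (abs_nonneg _)
                rw [mul_pow, pow_succ, mul_comm (Real.log ((2 ^ j : ℕ) : ℝ) ^ C)]
                apply mul_le_mul_of_nonneg_right _ (by positivity)
                nlinarith
            _ = Real.log ((2 ^ j : ℕ) : ℝ) ^ (U + 2 + (C + 1)) * |v m i| := by rw [pow_add]; ring
        · refine g2.trans ?_
          have hD0 : (0 : ℝ) ≤ D := Nat.cast_nonneg _
          have hB0 : (0 : ℝ) ≤ B := Nat.cast_nonneg _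
          have hT0 : (0 : ℝ) ≤ T := Nat.cast_nonneg _
          have hB1' : (B1 : ℝ) = 2 * B + 2 * D + T := by rw [hB1]; push_cast; ring
          rw [hB1']
          calc (D : ℝ) * m ≤ D * (2 * ((2 ^ j : ℕ) : ℝ)) := mul_le_mul_of_nonneg_left hm5 hD0
            _ = 2 * D * ((2 ^ j : ℕ) : ℝ) := by ring
            _ ≤ (2 * B + 2 * D + T) * ((2 ^ j : ℕ) : ℝ) := by
                apply mul_le_mul_of_nonneg_right _ (Nat.cast_nonneg _)
                linarith
        · refine g3.trans ?_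
          have hD0 : (0 : ℝ) ≤ D := Nat.cast_nonneg _
          have hB0 : (0 : ℝ) ≤ B := Nat.cast_nonneg _
          have hT0 : (0 : ℝ) ≤ T := Nat.cast_nonneg _
          have hB1' : (B1 : ℝ) = 2 * B + 2 * D + T := by rw [hB1]; push_cast; ring
          rw [hB1']
          calc (D : ℝ) * m ≤ D * (2 * ((2 ^ j : ℕ) : ℝ)) := mul_le_mul_of_nonneg_left hm5 hD0
            _ = 2 * D * ((2 ^ j : ℕ) : ℝ) := by ring
            _ ≤ (2 * B + 2 * D + T) * ((2 ^ j : ℕ) : ℝ) := by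
                apply mul_le_mul_of_nonneg_right _ (Nat.cast_nonneg _)
                linarith)
      refine ⟨E, hE2.trans (ENNReal.ofReal_le_ofReal ?_), fun _ y hy hyE => hE3 y hy hyE⟩
      have g6 : Real.log ((2 ^ j : ℕ) : ℝ) = j * Real.log 2 := by
        push_cast
        rw [Real.log_pow]
      have g7 : 1 / (Real.log 2) ^ 2 * (1 / (j : ℝ) ^ 2) = 1 / Real.log ((2 ^ j : ℕ) : ℝ) ^ 2 := by
        rw [g6, mul_pow, div_mul_div_comm, one_mul, mul_comm]
      rw [g7]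
      exact one_div_le_one_div_of_le (by positivity) (pow_le_pow_right₀ hl1 (by omega))
    · exact ⟨∅, by simp, fun h5 => absurd h5 hj⟩
  choose E hE1 hE2 using key
  have hsum : ∑' j, volume (E j) ≠ ∞ := by
    have h5 : Summable (fun j : ℕ => 1 / (Real.log 2) ^ 2 * (1 / (j : ℝ) ^ 2)) :=
      (Real.summable_one_div_nat_pow.2 (by norm_num)).mul_left _
    exact ne_top_of_le_ne_top h5.tsum_ofReal_ne_top (ENNReal.tsum_le_tsum hE1)
  have hae := ae_eventually_notMem hsum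
  filter_upwards [hae] with y hy hyT
  obtain ⟨J, hJ⟩ := eventually_atTop.1 hy
  refine eventually_atTop.2 ⟨2 ^ (J + N₀), fun N hN => ?_⟩
  obtain ⟨j, hj⟩ : ∃ j : ℕ, j = Nat.log 2 N := ⟨_, rfl⟩
  have hN0 : N ≠ 0 := by
    have : 0 < 2 ^ (J + N₀) := by positivity
    omega
  have hj1 : 2 ^ j ≤ N := by rw [hj]; exact Nat.pow_log_le_self 2 hN0
  have hj2 : N < 2 ^ (j + 1) := by rw [hj]; exact Nat.lt_pow_succ_log_self (by norm_num) N
  have hj3 : J + N₀ ≤ j := by rw [hj]; exact Nat.le_log_of_pow_le (by norm_num) hN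
  have hj4 : N₀ ≤ 2 ^ j := (by omega : N₀ ≤ j).trans (Nat.lt_two_pow_self).le
  have hlj := hl j hj4
  have hl1 : 1 ≤ Real.log ((2 ^ j : ℕ) : ℝ) := by nlinarith
  have hl0 : 0 < Real.log ((2 ^ j : ℕ) : ℝ) := by linarith
  have hB1' : (B1 : ℝ) = 2 * B + 2 * D + T := by rw [hB1]; push_cast; ring
  have h5 := hE2 j hj4 y (fun i => (hyT i).trans (by
    rw [hB1']
    have hD0 : (0 : ℝ) ≤ D := Nat.cast_nonneg _
    have hB0 : (0 : ℝ) ≤ B := Nat.cast_nonneg _
    linarith)) (hJ j (by omega))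
  obtain ⟨Q, hQ⟩ : ∃ Q : ℝ, Q = ((2 ^ j : ℕ) : ℝ) / Real.log ((2 ^ j : ℕ) : ℝ) ^ (U + 2) := ⟨_, rfl⟩
  have hQ1 : 1 ≤ Q := by
    rw [hQ, le_div_iff₀ (by positivity), one_mul]
    exact h4 (2 ^ j) (by omega)
  have hsub : (Icc 1 N).filter (fun m => ¬ AllGood ε A V B N (fun i => v m i * y i + β m i)) ⊆
      ((M j).filter fun m => ¬ AllGood (min ε 1 / 4) (A + 1) (V + 1) B1 (2 ^ j)
        (fun i => v m i * y i + β m i)) ∪ Icc 1 ⌊Q⌋₊ := by
    intro m hm
    obtain ⟨hm1, hm2⟩ := mem_filter.1 hm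
    obtain ⟨hm3, hm4⟩ := Finset.mem_Icc.1 hm1
    rw [mem_union]
    by_cases hmM : m ∈ M j
    · left
      refine mem_filter.2 ⟨hmM, fun hg => hm2 ?_⟩
      refine h2 (2 ^ j) N (by omega) hj1 (by rw [← pow_succ']; exact hj2.le) _ ?_
      intro a ha
      exact (hg a ha).mono (by omega)
    · right
      rw [Finset.mem_Icc]
      refine ⟨hm3, Nat.le_floor ?_⟩
      rcases Nat.lt_or_ge m 2 with h6 | h6
      · have : (m : ℝ) ≤ 1 := by exact_mod_cast (by omega : m ≤ 1)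
        linarith
      · rw [hM] at hmM
        simp only [mem_filter, Finset.mem_Icc, not_and, not_le] at hmM
        have h7 := hmM ⟨h6, by omega⟩
        rw [hQ, le_div_iff₀ (by positivity), mul_comm]
        exact h7.le
  have hMc : ((M j).card : ℝ) ≤ 2 * ((2 ^ j : ℕ) : ℝ) := by
    have h6 : (M j).card ≤ 2 * 2 ^ j := by
      rw [hM]
      refine (card_filter_le _ _).trans ?_
      rw [Nat.card_Icc, pow_succ']
      omega
    exact_mod_cast h6
  have hP0 : (0 : ℝ) < ((2 ^ j : ℕ) : ℝ) := by positivity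
  have hNlog : Real.log N ≤ 2 * Real.log ((2 ^ j : ℕ) : ℝ) := by
    have g4 : (N : ℝ) ≤ ((2 ^ j : ℕ) : ℝ) * 2 := by
      have : N ≤ 2 ^ j * 2 := by rw [← pow_succ]; exact hj2.le
      exact_mod_cast this
    have hNpos : (0 : ℝ) < N := by exact_mod_cast Nat.pos_of_ne_zero hN0
    have g5 : Real.log N ≤ Real.log (((2 ^ j : ℕ) : ℝ) * 2) := Real.log_le_log hNpos g4
    rw [Real.log_mul (by positivity) (by norm_num)] at g5
    have := Real.log_two_lt_d9
    linarith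
  have hNl0 : 0 < Real.log N := by
    have : Real.log ((2 ^ j : ℕ) : ℝ) ≤ Real.log N := Real.log_le_log hP0 (by exact_mod_cast hj1)
    linarith
  calc (((Icc 1 N).filter fun m => ¬ AllGood ε A V B N (fun i => v m i * y i + β m i)).card : ℝ)
      ≤ (((M j).filter fun m => ¬ AllGood (min ε 1 / 4) (A + 1) (V + 1) B1 (2 ^ j)
        (fun i => v m i * y i + β m i)).card : ℝ) + ((Icc 1 ⌊Q⌋₊).card : ℝ) := by
        exact_mod_cast (card_le_card hsub).trans (card_union_le _ _)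
    _ ≤ (M j).card / Real.log ((2 ^ j : ℕ) : ℝ) ^ (U + 3) + Q := by
        refine add_le_add h5 ?_
        rw [Nat.card_Icc, Nat.add_sub_cancel]
        exact Nat.floor_le (by linarith)
    _ ≤ 2 * ((2 ^ j : ℕ) : ℝ) / Real.log ((2 ^ j : ℕ) : ℝ) ^ (U + 2) + Q := by
        apply add_le_add_left
        apply div_le_div₀ (by positivity) hMc (by positivity)
        exact pow_le_pow_right₀ hl1 (by omega)
    _ = 3 * ((2 ^ j : ℕ) : ℝ) / Real.log ((2 ^ j : ℕ) : ℝ) ^ (U + 2) := by rw [hQ]; ring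
    _ ≤ N / Real.log N ^ U := by
        rw [div_le_div_iff₀ (by positivity) (by positivity)]
        have g1 : Real.log N ^ U ≤ 2 ^ U * Real.log ((2 ^ j : ℕ) : ℝ) ^ U := by
          rw [← mul_pow]
          exact pow_le_pow_left₀ hNl0.le hNlog _
        have g2 : 3 * (2 : ℝ) ^ U ≤ Real.log ((2 ^ j : ℕ) : ℝ) ^ 2 := by nlinarith
        calc 3 * ((2 ^ j : ℕ) : ℝ) * Real.log N ^ U
            ≤ 3 * ((2 ^ j : ℕ) : ℝ) * (2 ^ U * Real.log ((2 ^ j : ℕ) : ℝ) ^ U) :=
              mul_le_mul_of_nonneg_left g1 (by positivity)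
          _ = (3 * 2 ^ U) * (((2 ^ j : ℕ) : ℝ) * Real.log ((2 ^ j : ℕ) : ℝ) ^ U) := by ring
          _ ≤ Real.log ((2 ^ j : ℕ) : ℝ) ^ 2 * (((2 ^ j : ℕ) : ℝ) * Real.log ((2 ^ j : ℕ) : ℝ) ^ U) :=
              mul_le_mul_of_nonneg_right g2 (by positivity)
          _ = ((2 ^ j : ℕ) : ℝ) * Real.log ((2 ^ j : ℕ) : ℝ) ^ (U + 2) := by rw [pow_add]; ring
          _ ≤ N * Real.log ((2 ^ j : ℕ) : ℝ) ^ (U + 2) := by
              apply mul_le_mul_of_nonneg_right _ (by positivity)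
              exact_mod_cast hj1

lemma ae_sparse (k A B C D V T : ℕ) (hk : 1 ≤ k) (ε : ℝ) (hε : 0 < ε) (s : ℕ → ℕ)
    (hs : ∀ m : ℕ, (m : ℝ) ≤ Real.log (s m) ^ C) (v β : ℕ → Fin k → ℝ)
    (h : ∀ m i, (s m : ℝ) ≤ Real.log (s m) ^ C * |v m i| ∧ |v m i| ≤ D * s m ∧ |β m i| ≤ D * s m) :
    ∀ᵐ y : Fin k → ℝ, (∀ i, |y i| ≤ T) → ∀ᶠ m : ℕ in atTop,
      AllGood ε A V B (s m) (fun i => v m i * y i + β m i) := by
  obtain ⟨N₀, h0⟩ := bad_meas k A (B + D + T) C V (C * 2) hk ε hε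
  have hB : ∀ x : ℝ, 0 ≤ x → (D : ℝ) * x ≤ ((B + D + T : ℕ) : ℝ) * x := by
    intro x hx
    apply mul_le_mul_of_nonneg_right _ hx
    exact_mod_cast (by omega : D ≤ B + D + T)
  have key : ∀ m : ℕ, ∃ E : Set (Fin k → ℝ), volume E ≤ ENNReal.ofReal (1 / (m : ℝ) ^ 2) ∧
      (1 ≤ m ∧ N₀ ≤ s m → ∀ y : Fin k → ℝ, (∀ i, |y i| ≤ T) → y ∉ E →
        AllGood ε A V B (s m) (fun i => v m i * y i + β m i)) := by
    intro m
    by_cases hm : 1 ≤ m ∧ N₀ ≤ s m
    · have hsm := hs m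
      have hm1 : (1 : ℝ) ≤ m := by exact_mod_cast hm.1
      have hsm0 : (0 : ℝ) ≤ s m := Nat.cast_nonneg _
      obtain ⟨F, -, hF2, hF3⟩ := h0 (s m) hm.2 (v m) (β m) (fun i => (h m i).1)
        (fun i => (h m i).2.1.trans (hB _ hsm0)) (fun i => (h m i).2.2.trans (hB _ hsm0))
      refine ⟨F, hF2.trans (ENNReal.ofReal_le_ofReal ?_), fun _ y hy hyF => ?_⟩
      · rw [pow_mul]
        exact one_div_le_one_div_of_le (by positivity) (pow_le_pow_left₀ (by linarith) hsm 2)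
      · by_contra hbad
        refine hyF (hF3 y (fun i => (hy i).trans (by exact_mod_cast (by omega : T ≤ B + D + T))) fun hall => hbad ?_)
        intro a ha
        exact (hall a ha).mono (by omega)
    · exact ⟨∅, by simp, fun h5 => absurd h5 hm⟩
  choose E hE1 hE2 using key
  have hsum : ∑' j, volume (E j) ≠ ∞ := by
    have h5 : Summable (fun j : ℕ => 1 / (j : ℝ) ^ 2) := Real.summable_one_div_nat_pow.2 (by norm_num)
    exact ne_top_of_le_ne_top h5.tsum_ofReal_ne_top (ENNReal.tsum_le_tsum hE1)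
  filter_upwards [ae_eventually_notMem hsum] with y hy hyT
  obtain ⟨J, hJ⟩ := eventually_atTop.1 hy
  refine eventually_atTop.2 ⟨J + ⌈Real.log N₀ ^ C⌉₊ + 1, fun m hm => ?_⟩
  refine hE2 m ⟨by omega, ?_⟩ y hyT (hJ m (by omega))
  by_contra hcon
  push Not at hcon
  have h1 : Real.log (s m) ≤ Real.log N₀ := by
    rcases Nat.eq_zero_or_pos (s m) with h2 | h2
    · rw [h2]
      simp only [Nat.cast_zero, Real.log_zero]
      exact Real.log_natCast_nonneg _
    · exact Real.log_le_log (by exact_mod_cast h2) (by exact_mod_cast hcon.le)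
  have h2 : Real.log (s m) ^ C ≤ Real.log N₀ ^ C := pow_le_pow_left₀ (Real.log_natCast_nonneg _) h1 _
  have h3 : Real.log N₀ ^ C ≤ ⌈Real.log N₀ ^ C⌉₊ := Nat.le_ceil _
  have h4 : ((⌈Real.log N₀ ^ C⌉₊ : ℕ) : ℝ) < m := by exact_mod_cast (by omega : ⌈Real.log N₀ ^ C⌉₊ < m)
  have := hs m
  linarith

lemma Good.mono_eps {ε ε' : ℝ} (hε : ε' ≤ ε) {V B N k : ℕ} {a : Fin k → ℤ} (_hN : 1 ≤ N) (h : Good ε' V B N a) :
    Good ε V B N a := by
  intro hadm
  obtain ⟨S, h1, h2, h3⟩ := h hadm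
  refine ⟨S, h1, h2, fun y₁ y₂ h12 hy hΔ => (h3 y₁ y₂ h12 hy hΔ).trans ?_⟩
  apply mul_le_mul_of_nonneg_right hε
  have h4 : (y₁ : ℝ) ≤ y₂ := by exact_mod_cast h12.le
  have h5 : 0 ≤ Real.log N := Real.log_natCast_nonneg _
  exact div_nonneg (mul_nonneg h1.le (by linarith)) (by positivity)

open Classical in
/-- The number of the `m` in the finite set `M` for which not all vectors of integers within `log ^ A N` of `z m` are
good. -/
noncomputable def exceptions (ε : ℝ) (A V B N : ℕ) {k : ℕ} (M : Finset ℕ) (z : ℕ → Fin k → ℝ) : ℕ :=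
  (M.filter fun m => ¬ AllGood ε A V B N (z m)).card

/-- Let `k ≥ 1`.

* Let `A`, `B`, `C`, `V`, `U` and `ε > 0` be fixed and `N` large. Let `v m i` and `β m i`, for `m` in a finite set `M` and
  `i = 1, ..., k`, be any real numbers with `N / log ^ C N ≤ |v m i| ≤ B N` and `|β m i| ≤ B N`. Then for all real
  vectors `y` of the box `|y i| ≤ B` outside a set of measure at most `1 / log ^ U N`, for all `m` in `M` with at most
  `|M| / log ^ U N` exceptions, ALL admissible vectors of integers within `log ^ A N` of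
  `(v m 1 y 1 + β m 1, ..., v m k y k + β m k)` are good.
* Let `v m i` and `β m i` be real numbers with `m / log ^ C m ≤ |v m i| ≤ D m` and `|β m i| ≤ D m` for `m ≥ 2` (for instance
  `v m i = m`, `β m i = 0`). For almost every real vector `y`, for all `A`, `B`, `V`, `U` and `ε > 0` and all large `N`,
  for all `m ≤ N` with at most `N / log ^ U N` exceptions, ALL these vectors of integers are good.
* Let the scales `s m` satisfy `log ^ C (s m) ≥ m` (for instance `s m = 2 ^ m`), and let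
  `s m / log ^ C (s m) ≤ |v m i| ≤ D s m` and `|β m i| ≤ D s m`. For almost every real vector `y`, for all `A`, `B`, `V`
  and `ε > 0` and all large `m` (without exceptions), ALL these vectors of integers are good at the scale `N = s m`. -/
theorem result (k : ℕ) (hk : 1 ≤ k) :
    (∀ (A B C V U : ℕ) (ε : ℝ), 0 < ε → ∃ N₀ : ℕ, ∀ N : ℕ, N₀ ≤ N → ∀ (M : Finset ℕ) (v β : ℕ → Fin k → ℝ),
      (∀ m ∈ M, ∀ i, (N : ℝ) ≤ Real.log N ^ C * |v m i| ∧ |v m i| ≤ B * N ∧ |β m i| ≤ B * N) →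
      ∃ E : Set (Fin k → ℝ), MeasurableSet E ∧ volume E ≤ ENNReal.ofReal (1 / Real.log N ^ U) ∧
        ∀ y : Fin k → ℝ, (∀ i, |y i| ≤ B) → y ∉ E →
          (exceptions ε A V B N M (fun m i => v m i * y i + β m i) : ℝ) ≤ M.card / Real.log N ^ U) ∧
    (∀ (C D : ℕ) (v β : ℕ → Fin k → ℝ),
      (∀ m : ℕ, 2 ≤ m → ∀ i, (m : ℝ) ≤ Real.log m ^ C * |v m i| ∧ |v m i| ≤ D * m ∧ |β m i| ≤ D * m) →
      ∀ᵐ y : Fin k → ℝ, ∀ (A B V U : ℕ) (ε : ℝ), 0 < ε → ∀ᶠ N : ℕ in atTop,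
        (exceptions ε A V B N (Icc 1 N) (fun m i => v m i * y i + β m i) : ℝ) ≤ N / Real.log N ^ U) ∧
    (∀ (C D : ℕ) (s : ℕ → ℕ), (∀ m : ℕ, (m : ℝ) ≤ Real.log (s m) ^ C) → ∀ v β : ℕ → Fin k → ℝ,
      (∀ m i, (s m : ℝ) ≤ Real.log (s m) ^ C * |v m i| ∧ |v m i| ≤ D * s m ∧ |β m i| ≤ D * s m) →
      ∀ᵐ y : Fin k → ℝ, ∀ (A B V : ℕ) (ε : ℝ), 0 < ε → ∀ᶠ m : ℕ in atTop,
        AllGood ε A V B (s m) (fun i => v m i * y i + β m i)) := by
  classical
  refine ⟨fun A B C V U ε hε => ?_, fun C D v β h => ?_, fun C D s hs v β h => ?_⟩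
  · obtain ⟨N₀, h0⟩ := many k A B C V U hk ε hε
    refine ⟨N₀, fun N hN M v β hM => ?_⟩
    obtain ⟨E, h1, h2, h3⟩ := h0 N hN M v β hM
    refine ⟨E, h1, h2, fun y hy hyE => ?_⟩
    refine le_trans (le_of_eq ?_) (h3 y hy hyE)
    unfold exceptions
    congr
  · have h1 : ∀ᵐ y : Fin k → ℝ, ∀ A B V U T n : ℕ, (∀ i, |y i| ≤ T) → ∀ᶠ N : ℕ in atTop,
        (((Icc 1 N).filter fun m => ¬ AllGood (1 / ((n : ℝ) + 1)) A V B N (fun i => v m i * y i + β m i)).card : ℝ) ≤
          N / Real.log N ^ U := by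
      simp only [ae_all_iff]
      intro A B V U T n
      exact ae_one k A B C D V U T hk _ (by positivity) v β h
    filter_upwards [h1] with y hy A B V U ε hε
    obtain ⟨n, hn⟩ := exists_nat_one_div_lt hε
    obtain ⟨T, hT⟩ : ∃ T : ℕ, ∀ i, |y i| ≤ T := by
      obtain ⟨T, hT⟩ := exists_nat_ge (∑ i, |y i|)
      exact ⟨T, fun i => (single_le_sum (f := fun i => |y i|) (fun _ _ => abs_nonneg _) (mem_univ i)).trans hT⟩
    filter_upwards [hy A B V U T n hT, eventually_ge_atTop 1] with N hN hN1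
    refine le_trans ?_ hN
    unfold exceptions
    apply Nat.cast_le.2
    apply card_le_card
    intro m hm
    obtain ⟨hm1, hm2⟩ := mem_filter.1 hm
    refine mem_filter.2 ⟨hm1, fun hg => hm2 ?_⟩
    intro a ha
    exact (hg a ha).mono_eps hn.le hN1
  · have h1 : ∀ᵐ y : Fin k → ℝ, ∀ A B V T n : ℕ, (∀ i, |y i| ≤ T) → ∀ᶠ m : ℕ in atTop,
        AllGood (1 / ((n : ℝ) + 1)) A V B (s m) (fun i => v m i * y i + β m i) := by
      simp only [ae_all_iff]
      intro A B V T n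
      exact ae_sparse k A B C D V T hk _ (by positivity) s hs v β h
    filter_upwards [h1] with y hy A B V ε hε
    obtain ⟨n, hn⟩ := exists_nat_one_div_lt hε
    obtain ⟨T, hT⟩ : ∃ T : ℕ, ∀ i, |y i| ≤ T := by
      obtain ⟨T, hT⟩ := exists_nat_ge (∑ i, |y i|)
      exact ⟨T, fun i => (single_le_sum (f := fun i => |y i|) (fun _ _ => abs_nonneg _) (mem_univ i)).trans hT⟩
    filter_upwards [hy A B V T n hT, eventually_ge_atTop 2] with m hm hm2
    intro a ha
    refine (hm a ha).mono_eps hn.le ?_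
    by_contra hcon
    have h3 : s m = 0 := by omega
    have h4 := hs m
    rw [h3] at h4
    simp only [Nat.cast_zero, Real.log_zero] at h4
    have h5 : (2 : ℝ) ≤ m := by exact_mod_cast hm2
    have h6 : (0 : ℝ) ^ C ≤ 1 := pow_le_one₀ le_rfl zero_le_one
    linarith

end Pool.Agent.Results.MP_8923e7_nt.TuplesNearRealMultiples
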